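import Mathlib
import Pool.Agent.H30R3.NProg

/-!
# Equations with abelian constraints in trace monoids are undecidable as soon as two letters do not
commute
-/

set_option autoImplicit false

namespace Pool.Agent.Results.MP_301441_lc.AbelianConstraints

/-- The defining relations `a b = b a`, for `I a b`, of the trace monoid `M(A, I)` over the
alphabet `A = Fin k`. -/
def CommRel {k : ℕ} (I : Fin k → Fin k → Prop) (u v : FreeMonoid (Fin k)) : Prop :=
  ∃ a b, I a b ∧ u = FreeMonoid.of a * FreeMonoid.of b ∧ v = FreeMonoid.of b * FreeMonoid.of a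

/-- The trace monoid `M(A, I)` over the alphabet `A = Fin k` with independence relation `I`. -/
abbrev Trace {k : ℕ} (I : Fin k → Fin k → Prop) : Type := PresentedMonoid (CommRel I)

/-- The letter `a` as an element of the trace monoid. -/
def letter {k : ℕ} (I : Fin k → Fin k → Prop) (a : Fin k) : Trace I :=
  PresentedMonoid.of (CommRel I) a

/-- The abelianisation `M(A, I) → ℕ^A` as a monoid homomorphism (with `ℕ^A` written
multiplicatively): it sends the letter `a` to the unit vector at `a`. -/
def abHom {k : ℕ} (I : Fin k → Fin k → Prop) : Trace I →* Multiplicative (Fin k → ℕ) :=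
  PresentedMonoid.lift (fun a => Multiplicative.ofAdd (Pi.single a 1)) (by
    rintro _ _ ⟨a, b, -, rfl, rfl⟩
    rw [map_mul, map_mul, mul_comm])

/-- The abelianisation `π : M(A, I) → ℕ^A`, the vector of letter counts. -/
def ab {k : ℕ} (I : Fin k → Fin k → Prop) (m : Trace I) : Fin k → ℕ :=
  Multiplicative.toAdd (abHom I m)

/-- A side of an equation over `M(A, I)`: a word over letters (`Sum.inl a`) and variables
(`Sum.inr i`). -/
abbrev Word (k : ℕ) : Type := List (Fin k ⊕ ℕ)

/-- A side of an equation over `ℕ^A`: a constant vector and the list of the variables which are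
added to it. -/
abbrev AbWord (k : ℕ) : Type := (Fin k → ℕ) × List ℕ

/-- An instance: a finite system of equations over `M(A, I)` and a finite system of equations over
`ℕ^A`, in the same variables. -/
abbrev Inst (k : ℕ) : Type := List (Word k × Word k) × List (AbWord k × AbWord k)

/-- The value of a side of an equation over `M(A, I)` under an assignment. -/
def evalWord {k : ℕ} (I : Fin k → Fin k → Prop) (x : ℕ → Trace I) (w : Word k) : Trace I :=
  (w.map (Sum.elim (letter I) x)).prod

/-- The value of a side of an equation over `ℕ^A` under an assignment. -/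
def evalAb {k : ℕ} (y : ℕ → Fin k → ℕ) (w : AbWord k) : Fin k → ℕ :=
  w.1 + (w.2.map y).sum

/-- The instance has a solution: an assignment in `M(A, I)` which solves the equations over
`M(A, I)` and whose abelianisation solves the equations over `ℕ^A`. -/
def Solvable {k : ℕ} (I : Fin k → Fin k → Prop) (S : Inst k) : Prop :=
  ∃ x : ℕ → Trace I, (∀ e ∈ S.1, evalWord I x e.1 = evalWord I x e.2) ∧
    ∀ e ∈ S.2, evalAb (fun i => ab I (x i)) e.1 = evalAb (fun i => ab I (x i)) e.2

/-! ### words over two letters -/

theorem eq_replicate (c : Bool) : ∀ w : List Bool, w ++ [c] = c :: w →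
    w = List.replicate w.length c := by
  intro w
  induction w with
  | nil => intro _; rfl
  | cons d w ih =>
    intro h
    rw [List.cons_append, List.cons.injEq] at h
    obtain ⟨h1, h2⟩ := h
    subst h1
    rw [List.length_cons, List.replicate_succ, ← ih h2]

theorem count_comm (m : ℕ) : ∀ (n : ℕ) (w : List Bool), w.length ≤ n →
    w ++ (false :: List.replicate m true) = (false :: List.replicate m true) ++ w →
    w.count true = m * w.count false := by
  intro n
  induction n with
  | zero =>
    intro w hw _
    have : w = [] := List.length_eq_zero_iff.mp (Nat.le_zero.mp hw)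
    subst this
    rfl
  | succ n ih =>
    intro w hw h
    rcases Nat.eq_zero_or_pos w.length with h0 | hpos
    · have : w = [] := List.length_eq_zero_iff.mp h0
      subst this
      rfl
    set u := false :: List.replicate m true with hu
    have hul : u.length = m + 1 := by rw [hu, List.length_cons, List.length_replicate]
    by_cases hlen : m + 1 ≤ w.length
    · have h1 : w.take (m + 1) = u := by
        have h2 := congrArg (List.take (m + 1)) h
        have h3 : u.take (m + 1) = u := List.take_of_length_le hul.le
        rw [List.take_append_of_le_length hlen, List.take_append_of_le_length hul.ge, h3] at h2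
        exact h2
      obtain ⟨w', hw'⟩ : ∃ w', w = u ++ w' := ⟨w.drop (m + 1), by
        rw [← h1, List.take_append_drop]⟩
      subst hw'
      rw [List.append_assoc, List.append_cancel_left_eq] at h
      have h3 := ih w' (by rw [List.length_append] at hw; omega) h
      rw [List.count_append, List.count_append, h3, hu]
      simp [List.count_replicate]
      ring
    · exfalso
      have h1 : (w ++ u)[w.length]? = (u ++ w)[w.length]? := by rw [h]
      rw [List.getElem?_append_right (le_refl _), Nat.sub_self,
        List.getElem?_append_left (by omega)] at h1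
      obtain ⟨j, hj⟩ : ∃ j, w.length = j + 1 := ⟨w.length - 1, by omega⟩
      rw [hj, hu, List.getElem?_cons_succ, List.getElem?_replicate] at h1
      rw [if_pos (by omega)] at h1
      simp at h1

/-! ### basic facts on the abelianisation -/

section
variable {k : ℕ} {I : Fin k → Fin k → Prop}

theorem ab_mul (x y : Trace I) : ab I (x * y) = ab I x + ab I y := by
  unfold ab
  rw [map_mul]; rfl

theorem ab_one : ab I 1 = 0 := by
  unfold ab
  rw [map_one]; rfl

theorem ab_pow (x : Trace I) (n : ℕ) : ab I (x ^ n) = n • ab I x := by
  unfold ab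
  rw [map_pow]; rfl

theorem ab_letter (a : Fin k) : ab I (letter I a) = Pi.single a 1 := rfl

theorem evalWord_nil (x : ℕ → Trace I) : evalWord I x [] = 1 := rfl

theorem evalWord_cons (x : ℕ → Trace I) (c : Fin k ⊕ ℕ) (w : Word k) :
    evalWord I x (c :: w) = Sum.elim (letter I) x c * evalWord I x w := by
  unfold evalWord
  rw [List.map_cons, List.prod_cons]

theorem evalWord_replicate (x : ℕ → Trace I) (a : Fin k) (n : ℕ) :
    evalWord I x (List.replicate n (Sum.inl a)) = letter I a ^ n := by
  unfold evalWord
  rw [List.map_replicate, List.prod_replicate]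
  rfl

/-! ### the retraction on two dependent letters -/

/-- the images of the letters under the retraction -/
def rl (a b : Fin k) (c : Fin k) : FreeMonoid Bool :=
  if c = a then FreeMonoid.of true else if c = b then FreeMonoid.of false else 1

theorem rl_comm {a b : Fin k} (h1 : ¬ I a b) (h2 : ¬ I b a) {c d : Fin k} (h : I c d) :
    rl a b c * rl a b d = rl a b d * rl a b c := by
  unfold rl
  by_cases c1 : c = a
  · by_cases d1 : d = a
    · rw [if_pos c1, if_pos d1]
    · by_cases d2 : d = b
      · subst c1; subst d2
        exact absurd h h1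
      · rw [if_neg d1, if_neg d2, one_mul, mul_one]
  · by_cases c2 : c = b
    · by_cases d1 : d = a
      · subst c2; subst d1
        exact absurd h h2
      · by_cases d2 : d = b
        · rw [if_neg c1, if_pos c2, if_neg d1, if_pos d2]
        · rw [if_neg d1, if_neg d2, one_mul, mul_one]
    · rw [if_neg c1, if_neg c2, one_mul, mul_one]

/-- the retraction -/
def rho {a b : Fin k} (h1 : ¬ I a b) (h2 : ¬ I b a) : Trace I →* FreeMonoid Bool :=
  PresentedMonoid.lift (rl a b) (by
    rintro _ _ ⟨c, d, h, rfl, rfl⟩
    rw [map_mul, map_mul, FreeMonoid.lift_eval_of, FreeMonoid.lift_eval_of]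
    exact rl_comm h1 h2 h)

theorem rho_letter {a b : Fin k} (h1 : ¬ I a b) (h2 : ¬ I b a) (c : Fin k) :
    rho h1 h2 (letter I c) = rl a b c := rfl

/-- number of letters equal to `t` in the image -/
def ct {a b : Fin k} (h1 : ¬ I a b) (h2 : ¬ I b a) (t : Bool) (x : Trace I) : ℕ :=
  (rho h1 h2 x).toList.count t

theorem ct_mul {a b : Fin k} (h1 : ¬ I a b) (h2 : ¬ I b a) (t : Bool) (x y : Trace I) :
    ct h1 h2 t (x * y) = ct h1 h2 t x + ct h1 h2 t y := by
  unfold ct
  rw [map_mul, FreeMonoid.toList_mul, List.count_append]

theorem ct_ab {a b : Fin k} (hab : a ≠ b) (h1 : ¬ I a b) (h2 : ¬ I b a) (x : Trace I) :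
    ct h1 h2 true x = ab I x a ∧ ct h1 h2 false x = ab I x b := by
  obtain ⟨w, rfl⟩ := PresentedMonoid.surjective_mk x
  induction w with
  | one => exact ⟨rfl, rfl⟩
  | of c =>
    have e : PresentedMonoid.mk (CommRel I) (FreeMonoid.of c) = letter I c := rfl
    rw [e, ab_letter]
    unfold ct
    rw [rho_letter]
    unfold rl
    by_cases c1 : c = a
    · subst c1
      rw [if_pos rfl, Pi.single_eq_same, Pi.single_eq_of_ne (Ne.symm hab)]
      exact ⟨rfl, rfl⟩
    · by_cases c2 : c = b
      · subst c2
        rw [if_neg c1, if_pos rfl, Pi.single_eq_same, Pi.single_eq_of_ne (Ne.symm c1)]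
        exact ⟨rfl, rfl⟩
      · rw [if_neg c1, if_neg c2, Pi.single_eq_of_ne (Ne.symm c1),
          Pi.single_eq_of_ne (Ne.symm c2)]
        exact ⟨rfl, rfl⟩
  | mul x y hx hy =>
    rw [map_mul, ct_mul, ct_mul, ab_mul, Pi.add_apply, Pi.add_apply, hx.1, hx.2, hy.1, hy.2]
    exact ⟨rfl, rfl⟩

/-- elements commuting with the first letter -/
theorem comm_a {a b : Fin k} (h1 : ¬ I a b) (h2 : ¬ I b a) {x : Trace I}
    (h : x * letter I a = letter I a * x) :
    (rho h1 h2 x).toList = List.replicate (ct h1 h2 true x) true ∧ ct h1 h2 false x = 0 := by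
  have e := congrArg (fun y => (rho h1 h2 y).toList) h
  simp only [map_mul, FreeMonoid.toList_mul, rho_letter] at e
  have e2 : (rl a b a).toList = [true] := by
    unfold rl
    rw [if_pos rfl]; rfl
  rw [e2] at e
  have e3 := eq_replicate true _ e
  have e4 : ct h1 h2 true x = (rho h1 h2 x).toList.length := by
    unfold ct
    rw [e3]
    simp
  refine ⟨by rw [e4]; exact e3, ?_⟩
  unfold ct
  rw [e3]
  simp [List.count_replicate]

/-- elements commuting with the second letter -/
theorem comm_b {a b : Fin k} (hab : a ≠ b) (h1 : ¬ I a b) (h2 : ¬ I b a) {x : Trace I}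
    (h : x * letter I b = letter I b * x) : ct h1 h2 true x = 0 := by
  have e := congrArg (fun y => (rho h1 h2 y).toList) h
  simp only [map_mul, FreeMonoid.toList_mul, rho_letter] at e
  have e2 : (rl a b b).toList = [false] := by
    unfold rl
    rw [if_neg (Ne.symm hab), if_pos rfl]; rfl
  rw [e2] at e
  have e3 := eq_replicate false _ e
  unfold ct
  rw [e3]
  simp [List.count_replicate]

/-- elements commuting with `b aᵐ` -/
theorem comm_ba {a b : Fin k} (hab : a ≠ b) (h1 : ¬ I a b) (h2 : ¬ I b a) {x y : Trace I} (m : ℕ)
    (hy : (rho h1 h2 y).toList = List.replicate m true)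
    (h : x * (letter I b * y) = letter I b * (y * x)) :
    ct h1 h2 true x = m * ct h1 h2 false x := by
  have e := congrArg (fun y => (rho h1 h2 y).toList) h
  simp only [map_mul, FreeMonoid.toList_mul, rho_letter] at e
  have e2 : (rl a b b).toList = [false] := by
    unfold rl
    rw [if_neg (Ne.symm hab), if_pos rfl]; rfl
  rw [e2, hy] at e
  exact count_comm m _ _ (le_refl _) e

end

/-! ### the reduction -/

open Pool.Agent.H30R3.NProg

section
variable {k : ℕ} {V : Type}

/-- the variables of the system -/
abbrev Vars (V : Type) : Type := (V ⊕ V) ⊕ (V ⊕ (V × V))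

/-- powers of `a` -/
def vX (v : V) : Vars V := Sum.inl (Sum.inl v)
/-- powers of `b` -/
def vY (v : V) : Vars V := Sum.inl (Sum.inr v)
/-- powers of `b a` -/
def vZ (v : V) : Vars V := Sum.inr (Sum.inl v)
/-- powers of `b x` -/
def vW (v w : V) : Vars V := Sum.inr (Sum.inr (v, w))

/-- the equations which do not depend on the program -/
def baseEq (num : Vars V → ℕ) (a b : Fin k) (v : V) : List (Word k × Word k) :=
  [([.inr (num (vX v)), .inl a], [.inl a, .inr (num (vX v))]),
   ([.inr (num (vY v)), .inl b], [.inl b, .inr (num (vY v))]),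
   ([.inr (num (vZ v)), .inl b, .inl a], [.inl b, .inl a, .inr (num (vZ v))])]

def baseEq2 (num : Vars V → ℕ) (b : Fin k) (p : V × V) : Word k × Word k :=
  ([.inr (num (vW p.1 p.2)), .inl b, .inr (num (vX p.1))],
   [.inl b, .inr (num (vX p.1)), .inr (num (vW p.1 p.2))])

/-- the word equations of the program -/
def wEq (num : Vars V → ℕ) (a : Fin k) : NEq V → List (Word k × Word k)
  | .add i j l => [([.inr (num (vX i)), .inr (num (vX j))], [.inr (num (vX l))])]
  | .mul _ _ _ => []
  | .cst i n => [([.inr (num (vX i))], List.replicate n (.inl a))]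
  | .eq i j => [([.inr (num (vX i))], [.inr (num (vX j))])]

/-- the abelian equations -/
def baseAb (num : Vars V → ℕ) (v : V) : AbWord k × AbWord k :=
  ((0, [num (vZ v)]), (0, [num (vX v), num (vY v)]))

/-- the abelian equations of the program -/
def aEq (num : Vars V → ℕ) : NEq V → List (AbWord k × AbWord k)
  | .mul i j l => [((0, [num (vW i j)]), (0, [num (vY j), num (vX l)]))]
  | _ => []

/-- the fixed part of the system of word equations -/
def sysW (num : Vars V → ℕ) (a b : Fin k) (vs : List V) (L : List (NEq V)) :
    List (Word k × Word k) :=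
  vs.flatMap (baseEq num a b) ++ ((vs ×ˢ vs).map (baseEq2 num b) ++ L.flatMap (wEq num a))

/-- the system of abelian equations -/
def sysA (num : Vars V → ℕ) (vs : List V) (L : List (NEq V)) :
    List (AbWord k × AbWord k) :=
  vs.map (baseAb num) ++ L.flatMap (aEq num)

/-- the instance attached to `n` -/
def inst (num : Vars V → ℕ) (a b : Fin k) (vs : List V) (L : List (NEq V)) (f : V) (n : ℕ) :
    Inst k :=
  (([.inr (num (vX f))], List.replicate n (.inl a)) :: sysW num a b vs L, sysA num vs L)

variable {I : Fin k → Fin k → Prop}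

theorem sound {a b : Fin k} (hab : a ≠ b) (h1 : ¬ I a b) (h2 : ¬ I b a)
    (num : Vars V → ℕ) (vs : List V) (hvs : ∀ v, v ∈ vs) (L : List (NEq V)) (f : V) (n : ℕ)
    (h : Solvable I (inst num a b vs L f n)) :
    ∃ x : V → ℕ, x f = n ∧ ∀ q ∈ L, q.Holds x := by
  obtain ⟨x, hx, hy⟩ := h
  have hX : ∀ v, (rho h1 h2 (x (num (vX v)))).toList =
      List.replicate (ct h1 h2 true (x (num (vX v)))) true ∧
      ct h1 h2 false (x (num (vX v))) = 0 := by
    intro v
    apply comm_a
    have h3 := hx ([.inr (num (vX v)), .inl a], [.inl a, .inr (num (vX v))])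
      (List.mem_cons_of_mem _ (List.mem_append_left _ (List.mem_flatMap.mpr
        ⟨v, hvs v, by simp [baseEq]⟩)))
    simpa [evalWord_cons, evalWord_nil] using h3
  have hY : ∀ v, ct h1 h2 true (x (num (vY v))) = 0 := by
    intro v
    apply comm_b hab
    have h3 := hx ([.inr (num (vY v)), .inl b], [.inl b, .inr (num (vY v))])
      (List.mem_cons_of_mem _ (List.mem_append_left _ (List.mem_flatMap.mpr
        ⟨v, hvs v, by simp [baseEq]⟩)))
    simpa [evalWord_cons, evalWord_nil] using h3
  have hZ : ∀ v, ct h1 h2 true (x (num (vZ v))) = 1 * ct h1 h2 false (x (num (vZ v))) := by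
    intro v
    refine comm_ba hab h1 h2 (y := letter I a) 1 ?_ ?_
    · rw [rho_letter]
      unfold rl
      rw [if_pos rfl]
      rfl
    have h3 := hx ([.inr (num (vZ v)), .inl b, .inl a], [.inl b, .inl a, .inr (num (vZ v))])
      (List.mem_cons_of_mem _ (List.mem_append_left _ (List.mem_flatMap.mpr
        ⟨v, hvs v, by simp [baseEq]⟩)))
    simpa [evalWord_cons, evalWord_nil] using h3
  have hW : ∀ i j, ct h1 h2 true (x (num (vW i j))) =
      ct h1 h2 true (x (num (vX i))) * ct h1 h2 false (x (num (vW i j))) := by
    intro i j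
    refine comm_ba hab h1 h2 (y := x (num (vX i))) _ (hX i).1 ?_
    have h3 := hx (baseEq2 num b (i, j))
      (List.mem_cons_of_mem _ (List.mem_append_right _ (List.mem_append_left _
        (List.mem_map.mpr ⟨(i, j), List.pair_mem_product.mpr ⟨hvs i, hvs j⟩, rfl⟩))))
    simpa [baseEq2, evalWord_cons, evalWord_nil] using h3
  -- abelian equations
  have hYX : ∀ v, ct h1 h2 false (x (num (vY v))) = ct h1 h2 true (x (num (vX v))) := by
    intro v
    have h3 := hy (baseAb num v) (List.mem_append_left _ (List.mem_map_of_mem (hvs v)))
    simp only [baseAb, evalAb, List.map_cons, List.map_nil, List.sum_cons, List.sum_nil,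
      zero_add, add_zero] at h3
    have ha := congrFun h3 a
    have hb := congrFun h3 b
    rw [Pi.add_apply] at ha hb
    rw [← (ct_ab hab h1 h2 _).1, ← (ct_ab hab h1 h2 _).1, ← (ct_ab hab h1 h2 _).1] at ha
    rw [← (ct_ab hab h1 h2 _).2, ← (ct_ab hab h1 h2 _).2, ← (ct_ab hab h1 h2 _).2] at hb
    have e1 := (hX v).2
    have e2 := hY v
    have e3 := hZ v
    omega
  refine ⟨fun v => ct h1 h2 true (x (num (vX v))), ?_, ?_⟩
  · have h3 := hx ([.inr (num (vX f))], List.replicate n (.inl a)) List.mem_cons_self
    simp only [evalWord_replicate, evalWord_cons, evalWord_nil, Sum.elim_inr, mul_one] at h3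
    show ct h1 h2 true (x (num (vX f))) = n
    rw [(ct_ab hab h1 h2 _).1, h3, ab_pow, ab_letter]
    simp
  · intro q hq
    cases q with
    | add i j l =>
      have h3 := hx ([.inr (num (vX i)), .inr (num (vX j))], [.inr (num (vX l))])
        (List.mem_cons_of_mem _ (List.mem_append_right _ (List.mem_append_right _
          (List.mem_flatMap.mpr ⟨_, hq, by simp [wEq]⟩))))
      simp only [evalWord_cons, evalWord_nil, Sum.elim_inr, mul_one] at h3
      show ct h1 h2 true (x (num (vX i))) + ct h1 h2 true (x (num (vX j))) =
        ct h1 h2 true (x (num (vX l)))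
      rw [← h3, ct_mul]
    | mul i j l =>
      have h3 := hy ((0, [num (vW i j)]), (0, [num (vY j), num (vX l)]))
        (List.mem_append_right _ (List.mem_flatMap.mpr ⟨_, hq, by simp [aEq]⟩))
      simp only [evalAb, List.map_cons, List.map_nil, List.sum_cons, List.sum_nil,
        zero_add, add_zero] at h3
      have ha := congrFun h3 a
      have hb := congrFun h3 b
      rw [Pi.add_apply] at ha hb
      rw [← (ct_ab hab h1 h2 _).1, ← (ct_ab hab h1 h2 _).1, ← (ct_ab hab h1 h2 _).1] at ha
      rw [← (ct_ab hab h1 h2 _).2, ← (ct_ab hab h1 h2 _).2, ← (ct_ab hab h1 h2 _).2] at hb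
      show ct h1 h2 true (x (num (vX i))) * ct h1 h2 true (x (num (vX j))) =
        ct h1 h2 true (x (num (vX l)))
      rw [hY, zero_add] at ha
      rw [(hX l).2, add_zero, hYX] at hb
      rw [← ha, hW, hb]
    | cst i m =>
      have h3 := hx ([.inr (num (vX i))], List.replicate m (.inl a))
        (List.mem_cons_of_mem _ (List.mem_append_right _ (List.mem_append_right _
          (List.mem_flatMap.mpr ⟨_, hq, by simp [wEq]⟩))))
      simp only [evalWord_replicate, evalWord_cons, evalWord_nil, Sum.elim_inr, mul_one] at h3
      show ct h1 h2 true (x (num (vX i))) = m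
      rw [(ct_ab hab h1 h2 _).1, h3, ab_pow, ab_letter]
      simp
    | eq i j =>
      have h3 := hx ([.inr (num (vX i))], [.inr (num (vX j))])
        (List.mem_cons_of_mem _ (List.mem_append_right _ (List.mem_append_right _
          (List.mem_flatMap.mpr ⟨_, hq, by simp [wEq]⟩))))
      simp only [evalWord_cons, evalWord_nil, Sum.elim_inr, mul_one] at h3
      show ct h1 h2 true (x (num (vX i))) = ct h1 h2 true (x (num (vX j)))
      rw [h3]

/-- the intended solution -/
def sol (I : Fin k → Fin k → Prop) (a b : Fin k) (y : V → ℕ) : Vars V → Trace I :=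
  Sum.elim (Sum.elim (fun v => letter I a ^ y v) (fun v => letter I b ^ y v))
    (Sum.elim (fun v => (letter I b * letter I a) ^ y v)
      (fun p => (letter I b * letter I a ^ y p.1) ^ y p.2))

theorem complete {a b : Fin k} (num : Vars V → ℕ) (hnum : Function.Injective num)
    (vs : List V) (L : List (NEq V)) (f : V) (n : ℕ)
    (h : ∃ x : V → ℕ, x f = n ∧ ∀ q ∈ L, q.Holds x) :
    Solvable I (inst num a b vs L f n) := by
  obtain ⟨y, hyf, hy⟩ := h
  let x : ℕ → Trace I := Function.extend num (sol I a b y) 1
  have ex : ∀ u, x (num u) = sol I a b y u := fun u => hnum.extend_apply _ _ u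
  have eX : ∀ v, x (num (vX v)) = letter I a ^ y v := fun v => ex _
  have eY : ∀ v, x (num (vY v)) = letter I b ^ y v := fun v => ex _
  have eZ : ∀ v, x (num (vZ v)) = (letter I b * letter I a) ^ y v := fun v => ex _
  have eW : ∀ v w, x (num (vW v w)) = (letter I b * letter I a ^ y v) ^ y w := fun v w => ex _
  refine ⟨x, ?_, ?_⟩
  · intro e he
    rcases List.mem_cons.mp he with rfl | he
    · simp only [evalWord_replicate, evalWord_cons, evalWord_nil, Sum.elim_inr, mul_one, eX, hyf]
    rcases List.mem_append.mp he with he | he
    · obtain ⟨v, -, hv⟩ := List.mem_flatMap.mp he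
      simp only [baseEq, List.mem_cons, List.not_mem_nil, or_false] at hv
      rcases hv with rfl | rfl | rfl
      · simp only [evalWord_cons, evalWord_nil, Sum.elim_inr, Sum.elim_inl, mul_one, eX]
        rw [← pow_succ, ← pow_succ']
      · simp only [evalWord_cons, evalWord_nil, Sum.elim_inr, Sum.elim_inl, mul_one, eY]
        rw [← pow_succ, ← pow_succ']
      · simp only [evalWord_cons, evalWord_nil, Sum.elim_inr, Sum.elim_inl, mul_one, eZ]
        rw [← mul_assoc (letter I b), ← pow_succ, ← pow_succ']
    rcases List.mem_append.mp he with he | he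
    · obtain ⟨⟨i, j⟩, -, rfl⟩ := List.mem_map.mp he
      simp only [baseEq2, evalWord_cons, evalWord_nil, Sum.elim_inr, Sum.elim_inl, mul_one, eW,
        eX]
      rw [← mul_assoc (letter I b), ← pow_succ, ← pow_succ']
    · obtain ⟨q, hq, hv⟩ := List.mem_flatMap.mp he
      have hh := hy q hq
      cases q with
      | add i j l =>
        simp only [wEq, List.mem_singleton] at hv
        subst hv
        simp only [evalWord_cons, evalWord_nil, Sum.elim_inr, mul_one, eX]
        rw [← pow_add]
        exact congrArg _ hh
      | mul i j l =>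
        simp only [wEq, List.not_mem_nil] at hv
      | cst i m =>
        simp only [wEq, List.mem_singleton] at hv
        subst hv
        simp only [evalWord_replicate, evalWord_cons, evalWord_nil, Sum.elim_inr, mul_one, eX]
        exact congrArg _ hh
      | eq i j =>
        simp only [wEq, List.mem_singleton] at hv
        subst hv
        simp only [evalWord_cons, evalWord_nil, Sum.elim_inr, mul_one, eX]
        exact congrArg _ hh
  · intro e he
    rcases List.mem_append.mp he with he | he
    · obtain ⟨v, -, rfl⟩ := List.mem_map.mp he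
      simp only [baseAb, evalAb, List.map_cons, List.map_nil, List.sum_cons, List.sum_nil,
        zero_add, add_zero, eX, eY, eZ, ab_pow, ab_mul]
      rw [smul_add, add_comm]
    · obtain ⟨q, hq, hv⟩ := List.mem_flatMap.mp he
      have hh := hy q hq
      cases q with
      | mul i j l =>
        simp only [aEq, List.mem_singleton] at hv
        subst hv
        simp only [evalAb, List.map_cons, List.map_nil, List.sum_cons, List.sum_nil,
          zero_add, add_zero, eX, eY, eW, ab_pow, ab_mul]
        have hh' : y i * y j = y l := hh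
        rw [smul_add, smul_smul, ← hh', mul_comm (y j)]
      | add i j l => simp only [aEq, List.not_mem_nil] at hv
      | cst i m => simp only [aEq, List.not_mem_nil] at hv
      | eq i j => simp only [aEq, List.not_mem_nil] at hv

theorem primrec_inst (num : Vars V → ℕ) (a b : Fin k) (vs : List V) (L : List (NEq V)) (f : V) :
    Primrec (fun n => inst num a b vs L f n) := by
  unfold inst
  refine Primrec.pair ?_ (Primrec.const _)
  refine Primrec.list_cons.comp ?_ (Primrec.const _)
  refine Primrec.pair (Primrec.const _) ?_
  have h : Primrec (fun n : ℕ => (List.range n).map (fun _ => (Sum.inl a : Fin k ⊕ ℕ))) :=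
    Primrec.list_map Primrec.list_range (Primrec.const _).to₂
  refine h.of_eq fun n => ?_
  simp

end

/-- For every finite alphabet `A = Fin k` and every symmetric irreflexive independence relation `I`
for which some two distinct letters are not independent (that is, `M(A, I)` is not commutative),
the Diophantine problem with abelianisation constraints for the trace monoid `M(A, I)` is
undecidable. -/
theorem result (k : ℕ) (I : Fin k → Fin k → Prop) (hsymm : ∀ a b, I a b → I b a)
    (_hirr : ∀ a, ¬ I a a) (a b : Fin k) (hab : a ≠ b) (h : ¬ I a b) :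
    ¬ ComputablePred (fun S : Inst k => Solvable I S) := by
  intro hc
  obtain ⟨S, hS, hS'⟩ := exists_halting
  apply hS'
  obtain ⟨V, _, f, L, hL⟩ := exists_system S hS
  obtain ⟨num, hnum⟩ : ∃ num : Vars V → ℕ, Function.Injective num :=
    Countable.exists_injective_nat _
  have h2 : ¬ I b a := fun h' => h (hsymm _ _ h')
  have h3 := comp_pred hc (primrec_inst num a b (Finset.univ : Finset V).toList L f).to_comp
  refine h3.of_eq fun n => ?_
  rw [← hL n]
  constructor
  · exact sound hab h h2 num _ (fun v => by simp) L f n
  · exact complete num hnum _ L f n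

end Pool.Agent.Results.MP_301441_lc.AbelianConstraints
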